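import Mathlib

set_option autoImplicit false

/-!
Definitions: the set `T_k` of reflections of depth at most `k`, the Bruhat order, the
`k`-intermediate order, order complexes and shellability.
-/

namespace Pool.Agent.Lib.MP_20db89_co

section Coxeter

variable {B W : Type*} [Group W] {M : CoxeterMatrix B} (cs : CoxeterSystem M W)

/-- `T_k`: the reflections `t` with `(ℓ(t) - 1) / 2 ≤ k`. -/
def reflLE (k : ℕ) : Set W :=
  {t : W | cs.IsReflection t ∧ ((cs.length t : ℚ) - 1) / 2 ≤ k}

/-- The strict Bruhat order: the transitive closure of the relation `a → t a`, where `t` is a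
reflection and `ℓ(a) < ℓ(t a)`. -/
def bruhatLT (u v : W) : Prop :=
  Relation.TransGen
    (fun a b : W => ∃ t : W, cs.IsReflection t ∧ b = t * a ∧ cs.length a < cs.length b) u v

/-- The `k`-intermediate order: `u = v`, or `ℓ(u) < ℓ(v)` and there are `t_1, ..., t_r` in `T_k`
with `u < t_1 u < t_2 t_1 u < ... < t_r ... t_1 u = v` in Bruhat order. -/
def interLE (k : ℕ) (u v : W) : Prop :=
  u = v ∨ (cs.length u < cs.length v ∧
    Relation.TransGen (fun a b : W => ∃ t ∈ reflLE cs k, b = t * a ∧ bruhatLT cs a b) u v)

/-- The interval `[u, v]_k` of the `k`-intermediate order. -/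
def interInterval (k : ℕ) (u v : W) : Set W :=
  {w : W | interLE cs k u w ∧ interLE cs k w v}

end Coxeter

section Complex

variable {V : Type*}

/-- The order complex of the set `P` with the order relation `r`: its faces are the finite
chains of elements of `P`. -/
def orderComplex (r : V → V → Prop) (P : Set V) : Set (Finset V) :=
  {F : Finset V | (F : Set V) ⊆ P ∧ IsChain r (F : Set V)}

/-- A facet of the complex `Δ`, that is, a face which is maximal under inclusion. -/
def IsFacet (Δ : Set (Finset V)) (F : Finset V) : Prop :=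
  F ∈ Δ ∧ ∀ G ∈ Δ, F ⊆ G → F = G

/-- `Δ` is shellable: it has finitely many facets, every face lies in a facet, and the facets can
be listed without repetition as `F 0, F 1, ..., F (n - 1)` so that for every `j` and every common
face `G` of `F j` and of an earlier facet there is a face `H ⊇ G` of `F j` with
`|H| = |F j| - 1` which also lies in an earlier facet; that is, the intersection of `F j` with the
complex generated by the earlier facets is pure of dimension `dim (F j) - 1`. -/
def Shellable (Δ : Set (Finset V)) : Prop :=
  (∀ G ∈ Δ, ∃ F : Finset V, IsFacet Δ F ∧ G ⊆ F) ∧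
  ∃ (n : ℕ) (F : Fin n → Finset V), Function.Injective F ∧
    (∀ G : Finset V, IsFacet Δ G ↔ ∃ i : Fin n, F i = G) ∧
    ∀ (i j : Fin n), i < j → ∀ G : Finset V, G ⊆ F i → G ⊆ F j →
      ∃ H : Finset V, G ⊆ H ∧ H ⊆ F j ∧ H.card + 1 = (F j).card ∧ ∃ l : Fin n, l < j ∧ H ⊆ F l

end Complex

end Pool.Agent.Lib.MP_20db89_co
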