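import Mathlib
import Pool.Agent.Lib.MP_20db89_co.Defs
import Pool.Agent.Lib.MP_20db89_co.AK.LIN

section
set_option autoImplicit false

/-!
Shellability of the order complex of a family of sets in which adding the least missing element
is always allowed.
-/

namespace Pool.Agent.Lib.MP_20db89_co

/-- sorting the facets by a key -/
lemma shellable_of_key {V ι : Type*} [DecidableEq V] [LinearOrder ι] (Δ : Set (Finset V))
    (hcov : ∀ G ∈ Δ, ∃ F : Finset V, IsFacet Δ F ∧ G ⊆ F)
    (hfin : {F | IsFacet Δ F}.Finite) (key : Finset V → ι)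
    (hinj : Set.InjOn key {F | IsFacet Δ F})
    (hsh : ∀ F F', IsFacet Δ F → IsFacet Δ F' → key F < key F' →
      ∃ F'', IsFacet Δ F'' ∧ key F'' < key F' ∧ F ∩ F' ⊆ F'' ∧ (F'' ∩ F').card + 1 = F'.card) :
    Shellable Δ := by
  refine ⟨hcov, ?_⟩
  set Φ : Finset (Finset V) := hfin.toFinset with hΦ
  have hmem : ∀ F, F ∈ Φ ↔ IsFacet Δ F := by intro F; simp [hΦ]
  set K : Finset ι := Φ.image key with hK
  have hcard : K.card = Φ.card := by
    apply Finset.card_image_of_injOn
    intro a ha b hb hab
    exact hinj ((hmem a).1 ha) ((hmem b).1 hb) hab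
  have hex : ∀ i : Fin K.card, ∃ F, IsFacet Δ F ∧ key F = K.orderEmbOfFin rfl i := by
    intro i
    have h := K.orderEmbOfFin_mem rfl i
    obtain ⟨F, hF, hk⟩ := Finset.mem_image.1 h
    exact ⟨F, (hmem F).1 hF, hk⟩
  choose F hF hkey using hex
  have hFinj : Function.Injective F := by
    intro i j hij
    have := hkey i
    rw [hij, hkey j] at this
    exact ((K.orderEmbOfFin rfl).injective this).symm
  have hsurj : ∀ G, IsFacet Δ G → ∃ i, F i = G := by
    intro G hG
    have h1 : key G ∈ K := Finset.mem_image_of_mem _ ((hmem G).2 hG)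
    have h2 : key G ∈ Set.range (K.orderEmbOfFin rfl) := by
      rw [Finset.range_orderEmbOfFin]; exact h1
    obtain ⟨i, hi⟩ := h2
    exact ⟨i, hinj (hF i) hG (by rw [hkey i, hi])⟩
  refine ⟨K.card, F, hFinj, fun G => ⟨hsurj G, ?_⟩, ?_⟩
  · rintro ⟨i, rfl⟩; exact hF i
  · intro i j hij G hGi hGj
    have hlt : key (F i) < key (F j) := by
      rw [hkey, hkey]; exact (K.orderEmbOfFin rfl).strictMono hij
    obtain ⟨F'', h1, h2, h3, h4⟩ := hsh (F i) (F j) (hF i) (hF j) hlt
    obtain ⟨l, rfl⟩ := hsurj F'' h1
    refine ⟨F l ∩ F j, ?_, Finset.inter_subset_right, h4, l, ?_, Finset.inter_subset_left⟩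
    · intro x hx
      exact Finset.mem_inter.2 ⟨h3 (Finset.mem_inter.2 ⟨hGi hx, hGj hx⟩), hGj hx⟩
    · rw [hkey, hkey] at h2
      exact (K.orderEmbOfFin rfl).lt_iff_lt.1 h2

section Family

variable {α : Type*} [Fintype α] [LinearOrder α]

/-- an adjacent descent in a list that starts above and ends below -/
lemma exists_descent (r : List α) (a' a : α) (h : a < a') :
    ∃ (u : List α) (x y : α) (v : List α), a' :: (r ++ [a]) = u ++ x :: y :: v ∧ y < x := by
  induction r generalizing a' with
  | nil => exact ⟨[], a', a, [], rfl, h⟩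
  | cons b r ih =>
    by_cases hb : b < a'
    · exact ⟨[], a', b, r ++ [a], rfl, hb⟩
    · push Not at hb
      obtain ⟨u, x, y, v, he, hlt⟩ := ih b (lt_of_lt_of_le h hb)
      exact ⟨a' :: u, x, y, v, by rw [List.cons_append, he]; rfl, hlt⟩

/-- the chain of prefix sets of a list -/
def flag (l : List α) : Finset (Finset α) := (l.inits.map List.toFinset).toFinset

lemma mem_flag (l : List α) (T : Finset α) : T ∈ flag l ↔ ∃ u, u <+: l ∧ u.toFinset = T := by
  simp [flag]

/-- admissible lists -/
def Adm (P : Set (Finset α)) (l : List α) : Prop :=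
  l.Nodup ∧ (∀ a, a ∈ l) ∧ ∀ u, u <+: l → u.toFinset ∈ P

lemma flag_mem {P : Set (Finset α)} {l : List α} (hl : Adm P l) :
    flag l ∈ orderComplex (fun X Y : Finset α => X ⊆ Y) P := by
  constructor
  · intro T hT
    obtain ⟨u, hu, rfl⟩ := (mem_flag l T).1 hT
    exact hl.2.2 u hu
  · intro T hT T' hT' _
    obtain ⟨u, hu, rfl⟩ := (mem_flag l T).1 hT
    obtain ⟨u', hu', rfl⟩ := (mem_flag l T').1 hT'
    rcases List.prefix_or_prefix_of_prefix hu hu' with h | h
    · left
      intro x hx
      rw [List.mem_toFinset] at hx ⊢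
      exact h.subset hx
    · right
      intro x hx
      rw [List.mem_toFinset] at hx ⊢
      exact h.subset hx

lemma flag_facet {P : Set (Finset α)} {l : List α} (hl : Adm P l) :
    IsFacet (orderComplex (fun X Y : Finset α => X ⊆ Y) P) (flag l) := by
  refine ⟨flag_mem hl, ?_⟩
  intro G hG hsub
  apply Finset.Subset.antisymm hsub
  intro T hT
  have key : ∀ u : List α, u <+: l → T ∈ flag l ∨ u.toFinset ⊆ T := by
    intro u
    induction u using List.reverseRecOn with
    | nil => intro _; right; simp
    | append_singleton u x ih =>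
      intro hu
      have hu' : u <+: l := (List.prefix_append u [x]).trans hu
      rcases ih hu' with h | h
      · exact Or.inl h
      · have hmem : (u ++ [x]).toFinset ∈ flag l := (mem_flag l _).2 ⟨_, hu, rfl⟩
        have hcomp : T ⊆ (u ++ [x]).toFinset ∨ (u ++ [x]).toFinset ⊆ T := by
          by_cases he : T = (u ++ [x]).toFinset
          · left; rw [he]
          · exact hG.2 hT (hsub hmem) he
        rcases hcomp with h1 | h1
        · by_cases hx : x ∈ T
          · right
            intro y hy
            rw [List.toFinset_append, Finset.mem_union] at hy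
            rcases hy with hy | hy
            · exact h hy
            · simp at hy; rw [hy]; exact hx
          · left
            have : T = u.toFinset := by
              apply Finset.Subset.antisymm _ h
              intro y hy
              have := h1 hy
              rw [List.toFinset_append, Finset.mem_union] at this
              rcases this with h2 | h2
              · exact h2
              · simp at h2; rw [h2] at hy; exact absurd hy hx
            rw [this]
            exact (mem_flag l _).2 ⟨u, hu', rfl⟩
        · exact Or.inr h1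
  rcases key l (List.prefix_refl l) with h | h
  · exact h
  · have : T = l.toFinset := by
      apply Finset.Subset.antisymm _ h
      intro y _
      rw [List.mem_toFinset]; exact hl.2.1 y
    rw [this]
    exact (mem_flag l _).2 ⟨l, List.prefix_refl l, rfl⟩

/-- the closure hypothesis: the least missing element may always be added first -/
def MinClosed (P : Set (Finset α)) : Prop :=
  ∀ X ∈ P, ∀ Y ∈ P, X ⊆ Y → ∀ s ∈ Y, s ∉ X → (∀ s' ∈ Y, s' ∉ X → s ≤ s') → insert s X ∈ P

lemma exists_list_of_facet {P : Set (Finset α)} (h0 : ∅ ∈ P) (h1 : Finset.univ ∈ P)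
    (hD : MinClosed P) {F : Finset (Finset α)}
    (hF : IsFacet (orderComplex (fun X Y : Finset α => X ⊆ Y) P) F) :
    ∃ l, Adm P l ∧ flag l = F := by
  classical
  have hmax : ∀ Z ∈ P, (∀ T ∈ F, T ⊆ Z ∨ Z ⊆ T) → Z ∈ F := by
    intro Z hZ hc
    have : insert Z F ∈ orderComplex (fun X Y : Finset α => X ⊆ Y) P := by
      constructor
      · intro T hT
        rw [Finset.mem_coe, Finset.mem_insert] at hT
        rcases hT with rfl | hT
        · exact hZ
        · exact hF.1.1 hT
      · intro T hT T' hT' hne
        rw [Finset.mem_coe, Finset.mem_insert] at hT hT'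
        rcases hT with rfl | hT
        · rcases hT' with rfl | hT'
          · exact absurd rfl hne
          · exact (hc T' hT').symm
        · rcases hT' with rfl | hT'
          · exact hc T hT
          · exact hF.1.2 hT hT' hne
    have h2 := hF.2 _ this (Finset.subset_insert _ _)
    rw [h2]
    exact Finset.mem_insert_self _ _
  have hu : Finset.univ ∈ F := hmax _ h1 (fun T _ => Or.inl (Finset.subset_univ T))
  have he : ∅ ∈ F := hmax _ h0 (fun T _ => Or.inr (Finset.empty_subset T))
  have hcomp : ∀ X ∈ F, ∀ Y ∈ F, X ⊆ Y ∨ Y ⊆ X := by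
    intro X hX Y hY
    by_cases h : X = Y
    · left; rw [h]
    · exact hF.1.2 hX hY h
  have step : ∀ m : ℕ, m ≤ Fintype.card α →
      ∃ l : List α, l.Nodup ∧ l.length = m ∧ ∀ u, u <+: l → u.toFinset ∈ F := by
    intro m
    induction m with
    | zero =>
      intro _
      refine ⟨[], List.nodup_nil, rfl, ?_⟩
      intro u hu
      rw [List.prefix_nil] at hu
      subst hu
      simpa using he
    | succ m ih =>
      intro hm
      obtain ⟨l, hnd, hlen, hpre⟩ := ih (by omega)
      have hX : l.toFinset ∈ F := hpre l (List.prefix_refl l)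
      have hXc : l.toFinset.card = m := by rw [List.toFinset_card_of_nodup hnd, hlen]
      -- least element above `X`
      have hne : (F.filter (fun Y => l.toFinset ⊂ Y)).Nonempty := by
        refine ⟨Finset.univ, Finset.mem_filter.2 ⟨hu, ?_⟩⟩
        rw [Finset.ssubset_univ_iff]
        intro h
        rw [h, Finset.card_univ] at hXc
        omega
      obtain ⟨Y, hY, hYmin⟩ := Finset.exists_min_image _ Finset.card hne
      rw [Finset.mem_filter] at hY
      have hdiff : (Y \ l.toFinset).Nonempty := by
        rw [Finset.sdiff_nonempty]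
        exact hY.2.2
      set s := (Y \ l.toFinset).min' hdiff with hs
      have hsmem := Finset.min'_mem _ hdiff
      rw [← hs, Finset.mem_sdiff] at hsmem
      have hZ : insert s l.toFinset ∈ P := by
        apply hD l.toFinset (hF.1.1 hX) Y (hF.1.1 hY.1) hY.2.1 s hsmem.1 hsmem.2
        intro s' h2 h3
        exact Finset.min'_le _ _ (Finset.mem_sdiff.2 ⟨h2, h3⟩)
      have hZY : insert s l.toFinset ⊆ Y := by
        intro x hx
        rcases Finset.mem_insert.1 hx with rfl | hx
        · exact hsmem.1
        · exact hY.2.1 hx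
      have hZF : insert s l.toFinset ∈ F := by
        apply hmax _ hZ
        intro T hT
        rcases hcomp T hT _ hX with h | h
        · left; exact h.trans (Finset.subset_insert _ _)
        · by_cases hTX : T = l.toFinset
          · left; rw [hTX]; exact Finset.subset_insert _ _
          · right
            have hlt : l.toFinset ⊂ T := lt_of_le_of_ne h (Ne.symm hTX)
            have h5 := hYmin T (Finset.mem_filter.2 ⟨hT, hlt⟩)
            rcases hcomp Y hY.1 T hT with h6 | h6
            · exact hZY.trans h6
            · rw [Finset.eq_of_subset_of_card_le h6 h5]; exact hZY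
      refine ⟨l ++ [s], ?_, by simp [hlen], ?_⟩
      · rw [List.nodup_append]
        refine ⟨hnd, List.nodup_singleton s, ?_⟩
        intro a ha b hb
        rw [List.mem_singleton] at hb
        rw [hb]
        rintro rfl
        exact hsmem.2 (List.mem_toFinset.2 ha)
      · intro u hu
        rw [List.prefix_concat_iff] at hu
        rcases hu with rfl | hu
        · have : (l ++ [s]).toFinset = insert s l.toFinset := by
            ext x; simp [or_comm]
          rw [this]; exact hZF
        · exact hpre u hu
  obtain ⟨l, hnd, hlen, hpre⟩ := step (Fintype.card α) le_rfl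
  have hall : ∀ a, a ∈ l := by
    intro a
    have : l.toFinset = Finset.univ := by
      apply Finset.eq_univ_of_card
      rw [List.toFinset_card_of_nodup hnd, hlen]
    rw [← List.mem_toFinset, this]
    exact Finset.mem_univ a
  have hadm : Adm P l := ⟨hnd, hall, fun u hu => hF.1.1 (hpre u hu)⟩
  refine ⟨l, hadm, (flag_facet hadm).2 F hF.1 ?_⟩
  intro T hT
  obtain ⟨u, hu, rfl⟩ := (mem_flag l T).1 hT
  exact hpre u hu

lemma length_of_adm {P : Set (Finset α)} {l : List α} (hl : Adm P l) :
    l.length = Fintype.card α := by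
  have : l.toFinset = Finset.univ := by
    ext x; simp [hl.2.1 x]
  rw [← List.toFinset_card_of_nodup hl.1, this, Finset.card_univ]

lemma flag_injective {P : Set (Finset α)} {l l' : List α} (hl : Adm P l) (hl' : Adm P l')
    (h : flag l = flag l') : l = l' := by
  have key : ∀ u : List α, u <+: l → u <+: l' := by
    intro u
    induction u using List.reverseRecOn with
    | nil => intro _; exact List.nil_prefix
    | append_singleton u x ih =>
      intro hu
      have hu' : u <+: l' := ih ((List.prefix_append u [x]).trans hu)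
      have hmem : (u ++ [x]).toFinset ∈ flag l' := by
        rw [← h]; exact (mem_flag l _).2 ⟨_, hu, rfl⟩
      obtain ⟨v, hv, hve⟩ := (mem_flag l' _).1 hmem
      have hnu : (u ++ [x]).Nodup := hu.sublist.nodup hl.1
      have hnv : v.Nodup := hv.sublist.nodup hl'.1
      have hc : v.length = u.length + 1 := by
        rw [← List.toFinset_card_of_nodup hnv, hve, List.toFinset_card_of_nodup hnu]
        simp
      have hpv : u <+: v := List.prefix_of_prefix_length_le hu' hv (by omega)
      obtain ⟨w, rfl⟩ := hpv
      have hw : w.length = 1 := by simp at hc; omega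
      obtain ⟨y, rfl⟩ := List.length_eq_one_iff.1 hw
      have hxy : x = y := by
        have hx : x ∈ (u ++ [y]).toFinset := by rw [hve]; simp
        rw [List.mem_toFinset, List.mem_append, List.mem_singleton] at hx
        rcases hx with hx | hx
        · exfalso
          rw [List.nodup_append] at hnu
          exact hnu.2.2 x hx x (by simp) rfl
        · exact hx
      rw [hxy]; exact hv
  have h1 := key l (List.prefix_refl l)
  exact h1.eq_of_length (by rw [length_of_adm hl, length_of_adm hl'])

lemma lex_decomp {l l' : List α} (hlen : l.length = l'.length) (h : l < l') :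
    ∃ p a r a' r', l = p ++ a :: r ∧ l' = p ++ a' :: r' ∧ a < a' := by
  induction l generalizing l' with
  | nil =>
    cases l' with
    | nil => exact absurd h (lt_irrefl _)
    | cons b l' => simp at hlen
  | cons a l ih =>
    cases l' with
    | nil => simp at hlen
    | cons b l' =>
      rcases lt_trichotomy a b with hab | hab | hab
      · exact ⟨[], a, l, b, l', rfl, rfl, hab⟩
      · subst hab
        have h' : l < l' := by
          have h2 : List.Lex (· < ·) (a :: l) (a :: l') := h
          rw [List.lex_cons_iff] at h2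
          exact h2
        obtain ⟨p, c, r, c', r', h1, h2, h3⟩ := ih (by simpa using hlen) h'
        exact ⟨a :: p, c, r, c', r', by rw [h1]; rfl, by rw [h2]; rfl, h3⟩
      · exfalso
        have h2 : (b :: l') < (a :: l) := List.Lex.rel hab
        exact lt_asymm h h2

lemma lex_append (p : List α) {a a' : α} (r r' : List α) (h : a < a') :
    p ++ a :: r < p ++ a' :: r' := by
  exact List.Lex.append_left _ (List.Lex.rel h) p

lemma prefix_cases {A C w : List α} {x y : α} (h : w <+: A ++ x :: y :: C) :
    w <+: A ∨ w = A ++ [x] ∨ ∃ w', w' <+: C ∧ w = A ++ x :: y :: w' := by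
  have hA : A <+: A ++ x :: y :: C := List.prefix_append _ _
  rcases List.prefix_or_prefix_of_prefix h hA with h1 | h1
  · exact Or.inl h1
  · obtain ⟨w1, rfl⟩ := h1
    rw [List.prefix_append_right_inj] at h
    rcases w1 with _ | ⟨b, w2⟩
    · left; simp
    · rw [List.cons_prefix_cons] at h
      obtain ⟨rfl, h⟩ := h
      rcases w2 with _ | ⟨b', w3⟩
      · right; left; rfl
      · rw [List.cons_prefix_cons] at h
        obtain ⟨rfl, h⟩ := h
        right; right
        exact ⟨w3, h, rfl⟩

/-- swapping two adjacent letters in descending position -/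
lemma adm_swap {P : Set (Finset α)} (hD : MinClosed P) {A C : List α} {x y : α} (hyx : y < x)
    (hl : Adm P (A ++ x :: y :: C)) : Adm P (A ++ y :: x :: C) := by
  have hperm : List.Perm (A ++ y :: x :: C) (A ++ x :: y :: C) :=
    List.Perm.append_left A (List.Perm.swap x y C)
  have hnd : (A ++ y :: x :: C).Nodup := hperm.nodup_iff.2 hl.1
  refine ⟨hnd, fun a => hperm.mem_iff.2 (hl.2.1 a), ?_⟩
  intro w hw
  rcases prefix_cases hw with h | h | ⟨w', hw', rfl⟩
  · exact hl.2.2 w (h.trans (List.prefix_append _ _))
  · subst h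
    have hX : A.toFinset ∈ P := hl.2.2 A (List.prefix_append _ _)
    have hY : (A ++ [x, y]).toFinset ∈ P := by
      apply hl.2.2
      rw [List.prefix_append_right_inj]
      exact ⟨C, rfl⟩
    have hyA : y ∉ A := by
      rw [List.nodup_append] at hnd
      intro h
      exact hnd.2.2 y h y (by simp) rfl
    have h := hD A.toFinset hX (A ++ [x, y]).toFinset hY (by
        intro z hz
        rw [List.mem_toFinset] at hz ⊢
        simp [hz]) y (by simp) (by simpa using hyA) (by
        intro s' h1 h2
        rw [List.mem_toFinset] at h1 h2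
        simp only [List.mem_append, List.mem_cons, List.not_mem_nil, or_false] at h1
        rcases h1 with h1 | h1 | h1
        · exact absurd h1 h2
        · rw [h1]; exact hyx.le
        · rw [h1])
    have e : (A ++ [y]).toFinset = insert y A.toFinset := by
      ext z; simp [or_comm]
    rw [e]; exact h
  · have e : (A ++ y :: x :: w').toFinset = (A ++ x :: y :: w').toFinset := by
      ext z; simp; tauto
    rw [e]
    apply hl.2.2
    rw [List.prefix_append_right_inj]
    simpa using hw'

/-- the flag of the swapped list -/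
lemma mem_flag_swap {A C : List α} {x y : α} {T : Finset α} (hT : T ∈ flag (A ++ x :: y :: C))
    (hne : T ≠ (A ++ [x]).toFinset) : T ∈ flag (A ++ y :: x :: C) := by
  obtain ⟨w, hw, rfl⟩ := (mem_flag _ T).1 hT
  rcases prefix_cases hw with h | h | ⟨w', hw', rfl⟩
  · exact (mem_flag _ _).2 ⟨w, h.trans (List.prefix_append _ _), rfl⟩
  · exact absurd (by rw [h]) hne
  · have e : (A ++ x :: y :: w').toFinset = (A ++ y :: x :: w').toFinset := by
      ext z; simp; tauto
    rw [e]
    refine (mem_flag _ _).2 ⟨_, ?_, rfl⟩
    rw [List.prefix_append_right_inj]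
    simpa using hw'

lemma notMem_flag_swap {A C : List α} {x y : α} (hnd : (A ++ x :: y :: C).Nodup) :
    (A ++ [x]).toFinset ∉ flag (A ++ y :: x :: C) := by
  intro hT
  have hperm : List.Perm (A ++ y :: x :: C) (A ++ x :: y :: C) :=
    List.Perm.append_left A (List.Perm.swap x y C)
  have hnd' : (A ++ y :: x :: C).Nodup := hperm.nodup_iff.2 hnd
  obtain ⟨w, hw, he⟩ := (mem_flag _ _).1 hT
  have hAx : (A ++ [x]).Nodup := by
    apply List.Nodup.sublist _ hnd
    apply List.Sublist.append (List.Sublist.refl A)
    exact (List.nil_sublist _).cons_cons x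
  have hlen : w.length = A.length + 1 := by
    rw [← List.toFinset_card_of_nodup (hw.sublist.nodup hnd'), he, List.toFinset_card_of_nodup hAx]
    simp
  have hw2 : A ++ [y] <+: A ++ y :: x :: C := by
    rw [List.prefix_append_right_inj]
    exact ⟨x :: C, rfl⟩
  have hw3 : w = A ++ [y] := by
    have h3 : w <+: A ++ [y] := List.prefix_of_prefix_length_le hw hw2 (by simp [hlen])
    exact h3.eq_of_length (by simp [hlen])
  have hx : x ∈ w.toFinset := by rw [he]; simp
  rw [hw3, List.mem_toFinset, List.mem_append, List.mem_singleton] at hx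
  rw [List.nodup_append] at hnd
  rcases hx with hx | hx
  · exact hnd.2.2 x hx x (by simp) rfl
  · have := hnd.2.1
    simp [hx] at this

/-- the main shelling lemma for families of sets -/
theorem shellable_of_minClosed {P : Set (Finset α)} (h0 : ∅ ∈ P) (h1 : Finset.univ ∈ P)
    (hD : MinClosed P) : Shellable (orderComplex (fun X Y : Finset α => X ⊆ Y) P) := by
  classical
  set Δ := orderComplex (fun X Y : Finset α => X ⊆ Y) P with hΔ
  have hex : ∀ F : Finset (Finset α), IsFacet Δ F → ∃ l, Adm P l ∧ flag l = F :=
    fun F hF => exists_list_of_facet h0 h1 hD hF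
  let key : Finset (Finset α) → List α := fun F =>
    if h : ∃ l, Adm P l ∧ flag l = F then h.choose else []
  have hkey : ∀ F, IsFacet Δ F → Adm P (key F) ∧ flag (key F) = F := by
    intro F hF
    have h := hex F hF
    have e : key F = h.choose := dif_pos h
    rw [e]
    exact h.choose_spec
  have hkey2 : ∀ l, Adm P l → key (flag l) = l := by
    intro l hl
    have h := hkey (flag l) (flag_facet hl)
    exact flag_injective h.1 hl h.2
  apply shellable_of_key Δ ?_ (Set.toFinite _) key ?_ ?_
  · intro G hG
    obtain ⟨F, hGF, hF⟩ := (Set.toFinite Δ).exists_le_maximal hG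
    exact ⟨F, ⟨hF.1, fun G' hG' hle => le_antisymm hle (hF.2 hG' hle)⟩, hGF⟩
  · intro F hF F' hF' he
    rw [← (hkey F hF).2, ← (hkey F' hF').2, he]
  · intro F F' hF hF' hlt
    obtain ⟨hl, hlF⟩ := hkey F hF
    obtain ⟨hl', hlF'⟩ := hkey F' hF'
    obtain ⟨p, a, r, a', r', e, e', haa⟩ :=
      lex_decomp (by rw [length_of_adm hl, length_of_adm hl']) hlt
    -- locate `a` in `l'`
    have ha : a ∈ r' := by
      have := hl'.2.1 a
      rw [e', List.mem_append, List.mem_cons] at this
      rcases this with h | h | h
      · exfalso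
        have := hl.1
        rw [e, List.nodup_append] at this
        exact this.2.2 a h a (by simp) rfl
      · exact absurd h haa.ne
      · exact h
    obtain ⟨r1, r2, hr⟩ := List.append_of_mem ha
    obtain ⟨u, x, y, v, hu, hyx⟩ := exists_descent r1 a' a haa
    have e2 : key F' = (p ++ u) ++ x :: y :: (v ++ r2) := by
      have h3 : a' :: (r1 ++ [a]) ++ r2 = a' :: r' := by rw [hr]; simp
      rw [e', ← h3, hu]
      simp [List.append_assoc]
    have hl2 : Adm P ((p ++ u) ++ x :: y :: (v ++ r2)) := by rw [← e2]; exact hl'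
    have hl3 := adm_swap hD hyx hl2
    -- the set which is removed does not belong to `F`
    have hnot : ((p ++ u) ++ [x]).toFinset ∉ flag (key F) := by
      intro hT
      obtain ⟨w, hw, he⟩ := (mem_flag _ _).1 hT
      have hnd1 : ((p ++ u) ++ [x]).Nodup := by
        apply List.Nodup.sublist _ hl2.1
        apply List.Sublist.append (List.Sublist.refl _)
        exact (List.nil_sublist _).cons_cons x
      have hlen : w.length = (p ++ u).length + 1 := by
        rw [← List.toFinset_card_of_nodup (hw.sublist.nodup hl.1), he,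
          List.toFinset_card_of_nodup hnd1]
        simp
        omega
      have hpa : p ++ [a] <+: key F := by
        rw [e, List.prefix_append_right_inj]
        exact ⟨r, rfl⟩
      have hpw : p ++ [a] <+: w := List.prefix_of_prefix_length_le hpa hw (by simp at hlen ⊢; omega)
      have haw : a ∈ w := hpw.subset (by simp)
      rw [← List.mem_toFinset, he, List.mem_toFinset] at haw
      -- but `a` occurs after `u ++ [x]`
      have hay : a ∈ y :: v := by
        have hlast : (a' :: (r1 ++ [a])).getLast (by simp) = a := by simp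
        have hlast2 : (u ++ x :: y :: v).getLast (by simp) = (y :: v).getLast (by simp) := by
          simp
        have : (y :: v).getLast (by simp) = a := by
          rw [← hlast2, ← hlast]
          congr 1
          exact hu.symm
        rw [← this]
        exact List.getLast_mem _
      have hnd2 := hl2.1
      have e4 : (p ++ u) ++ x :: y :: (v ++ r2) = ((p ++ u) ++ [x]) ++ ((y :: v) ++ r2) := by
        simp [List.append_assoc]
      rw [e4, List.nodup_append] at hnd2
      exact hnd2.2.2 a haw a (List.mem_append_left _ hay) rfl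
    refine ⟨flag ((p ++ u) ++ y :: x :: (v ++ r2)), flag_facet hl3, ?_, ?_, ?_⟩
    · rw [hkey2 _ hl3, e2]
      exact lex_append _ _ _ hyx
    · intro T hT
      rw [Finset.mem_inter] at hT
      apply mem_flag_swap (x := x) (y := y)
      · rw [← e2, hlF']; exact hT.2
      · rintro rfl
        apply hnot
        rw [hlF]; exact hT.1
    · have e5 : flag ((p ++ u) ++ y :: x :: (v ++ r2)) ∩ F' = F'.erase ((p ++ u) ++ [x]).toFinset := by
        ext T
        rw [Finset.mem_inter, Finset.mem_erase]
        constructor
        · rintro ⟨h2, h3⟩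
          refine ⟨?_, h3⟩
          rintro rfl
          exact notMem_flag_swap hl2.1 h2
        · rintro ⟨h2, h3⟩
          refine ⟨?_, h3⟩
          apply mem_flag_swap _ h2
          rw [← e2, hlF']; exact h3
      have h6 : ((p ++ u) ++ [x]).toFinset ∈ F' := by
        rw [← hlF', e2]
        refine (mem_flag _ _).2 ⟨_, ?_, rfl⟩
        rw [List.prefix_append_right_inj]
        exact ⟨_, rfl⟩
      rw [e5]
      exact Finset.card_erase_add_one h6

end Family

/-- transport of shellability along an injective map -/
lemma shellable_image {V V' : Type*} [DecidableEq V'] {r : V → V → Prop} {r' : V' → V' → Prop}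
    {P : Set V} (g : V → V') (hg : Set.InjOn g P)
    (hr : ∀ x ∈ P, ∀ y ∈ P, r' (g x) (g y) ↔ r x y)
    (h : Shellable (orderComplex r P)) : Shellable (orderComplex r' (g '' P)) := by
  classical
  -- faces correspond
  have hface : ∀ F : Finset V, F ∈ orderComplex r P → F.image g ∈ orderComplex r' (g '' P) := by
    intro F hF
    constructor
    · intro x hx
      rw [Finset.coe_image] at hx
      obtain ⟨y, hy, rfl⟩ := hx
      exact ⟨y, hF.1 hy, rfl⟩
    · intro x hx y hy hne
      rw [Finset.coe_image] at hx hy
      obtain ⟨x, hx, rfl⟩ := hx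
      obtain ⟨y, hy, rfl⟩ := hy
      have hne' : x ≠ y := fun h => hne (by rw [h])
      rcases hF.2 hx hy hne' with h | h
      · left; exact (hr x (hF.1 hx) y (hF.1 hy)).2 h
      · right; exact (hr y (hF.1 hy) x (hF.1 hx)).2 h
  have hback : ∀ F' : Finset V', F' ∈ orderComplex r' (g '' P) →
      ∃ F : Finset V, F ∈ orderComplex r P ∧ F.image g = F' := by
    intro F' hF'
    have hch : ∀ x ∈ F', ∃ y, y ∈ P ∧ g y = x := by
      intro x hx
      obtain ⟨y, hy, he⟩ := hF'.1 hx
      exact ⟨y, hy, he⟩
    choose k hk using hch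
    refine ⟨F'.attach.image (fun x => k x.1 x.2), ⟨?_, ?_⟩, ?_⟩
    · intro y hy
      rw [Finset.coe_image] at hy
      obtain ⟨x, hx, rfl⟩ := hy
      exact (hk x.1 x.2).1
    · intro y hy z hz hne
      rw [Finset.coe_image] at hy hz
      obtain ⟨x, -, rfl⟩ := hy
      obtain ⟨x', -, rfl⟩ := hz
      have hne' : x.1 ≠ x'.1 := by
        intro h
        apply hne
        have : x = x' := Subtype.ext h
        rw [this]
      have h1 := hr _ (hk x.1 x.2).1 _ (hk x'.1 x'.2).1
      have h2 := hr _ (hk x'.1 x'.2).1 _ (hk x.1 x.2).1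
      rw [(hk x.1 x.2).2, (hk x'.1 x'.2).2] at h1 h2
      rcases hF'.2 x.2 x'.2 hne' with h | h
      · left; exact h1.1 h
      · right; exact h2.1 h
    · rw [Finset.image_image]
      ext z
      rw [Finset.mem_image]
      constructor
      · rintro ⟨x, hx, rfl⟩
        rw [Function.comp_apply, (hk x.1 x.2).2]; exact x.2
      · intro hz
        exact ⟨⟨z, hz⟩, Finset.mem_attach _ _, by rw [Function.comp_apply, (hk z hz).2]⟩
  have hsub : ∀ F G : Finset V, F ∈ orderComplex r P → G ∈ orderComplex r P →
      (F.image g ⊆ G.image g ↔ F ⊆ G) := by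
    intro F G hF hG
    constructor
    · intro h x hx
      obtain ⟨y, hy, he⟩ := Finset.mem_image.1 (h (Finset.mem_image_of_mem g hx))
      rw [← hg (hG.1 hy) (hF.1 hx) he]; exact hy
    · intro h; exact Finset.image_subset_image h
  have hinj : ∀ F G : Finset V, F ∈ orderComplex r P → G ∈ orderComplex r P →
      F.image g = G.image g → F = G := by
    intro F G hF hG h
    apply Finset.Subset.antisymm
    · exact (hsub F G hF hG).1 h.subset
    · exact (hsub G F hG hF).1 h.symm.subset
  have hfacet : ∀ F : Finset V, F ∈ orderComplex r P →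
      (IsFacet (orderComplex r P) F ↔ IsFacet (orderComplex r' (g '' P)) (F.image g)) := by
    intro F hF
    constructor
    · intro h
      refine ⟨hface F hF, ?_⟩
      intro G' hG' hle
      obtain ⟨G, hG, rfl⟩ := hback G' hG'
      rw [h.2 G hG ((hsub F G hF hG).1 hle)]
    · intro h
      refine ⟨hF, ?_⟩
      intro G hG hle
      exact hinj F G hF hG (h.2 _ (hface G hG) (Finset.image_subset_image hle))
  obtain ⟨hcov, n, F, hFinj, hFfac, hsh⟩ := h
  have hFm : ∀ i, F i ∈ orderComplex r P := fun i => ((hFfac (F i)).2 ⟨i, rfl⟩).1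
  refine ⟨?_, n, fun i => (F i).image g, ?_, ?_, ?_⟩
  · intro G' hG'
    obtain ⟨G, hG, rfl⟩ := hback G' hG'
    obtain ⟨E, hE, hGE⟩ := hcov G hG
    exact ⟨E.image g, (hfacet E hE.1).1 hE, Finset.image_subset_image hGE⟩
  · intro i j hij
    exact hFinj (hinj _ _ (hFm i) (hFm j) hij)
  · intro G'
    constructor
    · intro hG'
      obtain ⟨G, hG, rfl⟩ := hback G' hG'.1
      obtain ⟨i, hi⟩ := (hFfac G).1 ((hfacet G hG).2 hG')
      exact ⟨i, by rw [← hi]⟩
    · rintro ⟨i, rfl⟩
      exact (hfacet (F i) (hFm i)).1 ((hFfac (F i)).2 ⟨i, rfl⟩)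
  · intro i j hij G' hGi hGj
    -- pull `G'` back to a subset of `F j`
    set G := (F j).filter (fun x => g x ∈ G') with hG
    have hGimg : G.image g = G' := by
      ext z
      rw [Finset.mem_image]
      constructor
      · rintro ⟨x, hx, rfl⟩
        exact (Finset.mem_filter.1 hx).2
      · intro hz
        obtain ⟨x, hx, rfl⟩ := Finset.mem_image.1 (hGj hz)
        exact ⟨x, Finset.mem_filter.2 ⟨hx, hz⟩, rfl⟩
    have hGi' : G ⊆ F i := by
      intro x hx
      have hx' := Finset.mem_filter.1 hx
      obtain ⟨y, hy, he⟩ := Finset.mem_image.1 (hGi hx'.2)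
      rw [← hg ((hFm i).1 hy) ((hFm j).1 hx'.1) he]; exact hy
    obtain ⟨H, h1, h2, h3, l, h4, h5⟩ := hsh i j hij G hGi' (Finset.filter_subset _ _)
    refine ⟨H.image g, ?_, Finset.image_subset_image h2, ?_, l, h4, Finset.image_subset_image h5⟩
    · rw [← hGimg]; exact Finset.image_subset_image h1
    · rw [Finset.card_image_of_injOn (hg.mono (fun x hx => (hFm j).1 (h2 hx))),
        Finset.card_image_of_injOn (hg.mono (fun x hx => (hFm j).1 hx))]
      exact h3

end Pool.Agent.Lib.MP_20db89_co
end

section
set_option autoImplicit false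

/-!
The interval `[e, c]_k` below a Coxeter element in the `k`-intermediate order.
-/

namespace Pool.Agent.Lib.MP_20db89_co

open CoxeterSystem

section lists

variable {B : Type*} [DecidableEq B]

/-- the letters of `ω` lying in `J`, in the order of `ω` -/
def lst (ω : List B) (J : Finset B) : List B := ω.filter (fun b => b ∈ J)

/-- the letters of `ω` before `s` -/
def bef (ω : List B) (s : B) : List B := ω.takeWhile (fun b => b ≠ s)

/-- the letters of `ω` after `s` -/
def aft (ω : List B) (s : B) : List B := (ω.dropWhile (fun b => b ≠ s)).tail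

lemma split_at {ω : List B} {s : B} (hs : s ∈ ω) : ω = bef ω s ++ s :: aft ω s := by
  induction ω with
  | nil => simp at hs
  | cons b ω ih =>
    by_cases hb : b = s
    · subst hb
      simp [bef, aft]
    · have hs' : s ∈ ω := by
        rcases List.mem_cons.1 hs with h | h
        · exact absurd h.symm hb
        · exact h
      have e1 : bef (b :: ω) s = b :: bef ω s := by simp [bef, hb]
      have e2 : aft (b :: ω) s = aft ω s := by simp [aft, hb]
      rw [e1, e2, List.cons_append, ← ih hs']

lemma mem_lst {ω : List B} {J : Finset B} {b : B} : b ∈ lst ω J ↔ b ∈ ω ∧ b ∈ J := by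
  simp [lst]

lemma notMem_bef {ω : List B} {s : B} : s ∉ bef ω s := by
  intro h
  have := List.mem_takeWhile_imp h
  simp at this

lemma lst_append (ω ω' : List B) (J : Finset B) : lst (ω ++ ω') J = lst ω J ++ lst ω' J := by
  simp [lst]

lemma lst_congr {ω : List B} {J J' : Finset B} (h : ∀ b ∈ ω, b ∈ J ↔ b ∈ J') :
    lst ω J = lst ω J' := by
  unfold lst
  apply List.filter_congr
  intro b hb
  simp [h b hb]

lemma notMem_aft {ω : List B} (hn : ω.Nodup) {s : B} (hs : s ∈ ω) : s ∉ aft ω s := by
  intro h
  have e := split_at hs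
  rw [e, List.nodup_append] at hn
  exact (List.nodup_cons.1 hn.2.1).1 h

lemma lst_of_notMem {ω : List B} {J : Finset B} {s : B} (hs : s ∈ ω) (hJ : s ∉ J) :
    lst ω J = lst (bef ω s) J ++ lst (aft ω s) J := by
  conv_lhs => rw [split_at hs]
  rw [lst_append]
  congr 1
  simp [lst, hJ]

lemma lst_insert {ω : List B} (hn : ω.Nodup) {J : Finset B} {s : B} (hs : s ∈ ω) :
    lst ω (insert s J) = lst (bef ω s) J ++ s :: lst (aft ω s) J := by
  conv_lhs => rw [split_at hs]
  rw [lst_append]
  have h1 : lst (bef ω s) (insert s J) = lst (bef ω s) J := by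
    apply lst_congr
    intro b hb
    rw [Finset.mem_insert]
    constructor
    · rintro (rfl | h)
      · exact absurd hb notMem_bef
      · exact h
    · exact Or.inr
  have h2 : lst (s :: aft ω s) (insert s J) = s :: lst (aft ω s) J := by
    have h3 : lst (aft ω s) (insert s J) = lst (aft ω s) J := by
      apply lst_congr
      intro b hb
      rw [Finset.mem_insert]
      constructor
      · rintro (rfl | h)
        · exact absurd hb (notMem_aft hn hs)
        · exact h
      · exact Or.inr
    rw [← h3]
    simp [lst]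
  rw [h1, h2]

lemma take_erase_of_getElem {L A C : List B} {s : B} (hn : L.Nodup) (he : L = A ++ s :: C) {q : ℕ}
    (hq : q < L.length) (hs : L[q] = s) : L.take q = A ∧ L.eraseIdx q = A ++ C := by
  subst he
  have hA : A.length < (A ++ s :: C).length := by simp
  have h1 : (A ++ s :: C)[A.length] = s := by simp
  have h2 : q = A.length := by
    rw [← hn.getElem_inj_iff (hi := hq) (hj := hA), hs, h1]
  subst h2
  constructor
  · simp
  · rw [List.eraseIdx_append_of_length_le (le_refl _)]
    simp

end lists

section

variable {B : Type*} [LinearOrder B] {W : Type*} [Group W] {M : CoxeterMatrix B}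
  (cs : CoxeterSystem M W)

/-- the subword product of `ω` for `J` -/
noncomputable def wJ (ω : List B) (J : Finset B) : W := cs.wordProd (lst ω J)

/-- the length of the reflection adding `s` to `J` -/
noncomputable def dep (ω : List B) (J : Finset B) (s : B) : ℕ :=
  cs.length (conjRefl cs s (lst (bef ω s) J))

lemma mem_reflLE {k : ℕ} {t : W} : t ∈ reflLE cs k ↔ cs.IsReflection t ∧ cs.length t ≤ 2 * k + 1 := by
  unfold reflLE
  rw [Set.mem_ofPred_eq]
  apply and_congr_right
  intro _
  rw [div_le_iff₀ (by norm_num), sub_le_iff_le_add]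
  constructor
  · intro h
    have h2 : ((cs.length t : ℕ) : ℚ) ≤ ((2 * k + 1 : ℕ) : ℚ) := by push_cast; linarith
    exact_mod_cast h2
  · intro h
    have h2 : ((cs.length t : ℕ) : ℚ) ≤ ((2 * k + 1 : ℕ) : ℚ) := by exact_mod_cast h
    push_cast at h2
    linarith

lemma bruhatLT_length {u v : W} (h : bruhatLT cs u v) : cs.length u < cs.length v := by
  unfold bruhatLT at h
  induction h with
  | single h =>
    obtain ⟨t, -, -, h⟩ := h
    exact h
  | tail _ h ih =>
    obtain ⟨t, -, -, h⟩ := h
    exact ih.trans h

/-- an edge of the `k`-intermediate order -/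
def edge (k : ℕ) (a b : W) : Prop := ∃ t ∈ reflLE cs k, b = t * a ∧ bruhatLT cs a b

variable {ω : List B} (hn : ω.Nodup) (hall : ∀ b, b ∈ ω)

include hn hall

lemma wJ_insert {J : Finset B} {s : B} (hs : s ∉ J) :
    wJ cs ω (insert s J) = conjRefl cs s (lst (bef ω s) J) * wJ cs ω J := by
  unfold wJ conjRefl
  rw [lst_insert hn (hall s), lst_of_notMem (hall s) hs, cs.wordProd_append, cs.wordProd_cons,
    cs.wordProd_append]
  group

lemma conjRefl_isReflection (s : B) (τ : List B) : cs.IsReflection (conjRefl cs s τ) :=
  ⟨cs.wordProd τ, s, rfl⟩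

variable (hinj : Function.Injective cs.simple)

include hinj

lemma lst_nodup (J : Finset B) : (lst ω J).Nodup := hn.filter _

lemma length_wJ (J : Finset B) : cs.length (wJ cs ω J) = J.card := by
  have h1 : (lst ω J).Nodup := hn.filter _
  have h2 : (lst ω J).toFinset = J := by
    ext b; rw [List.mem_toFinset, mem_lst]
    exact ⟨fun h => h.2, fun h => ⟨hall b, h⟩⟩
  unfold wJ
  rw [(nodup_isReduced cs hinj h1).eq, ← List.toFinset_card_of_nodup h1, h2]

lemma wJ_injective : Function.Injective (wJ cs ω) := by
  have key : ∀ J J' : Finset B, wJ cs ω J = wJ cs ω J' → J ⊆ J' := by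
    intro J J' h b hb
    have h1 : (lst ω J).Nodup := hn.filter _
    have := letters_of_reduced cs hinj (nodup_isReduced cs hinj h1) h b (mem_lst.2 ⟨hall b, hb⟩)
    exact (mem_lst.1 this).2
  intro J J' h
  exact Finset.Subset.antisymm (key J J' h) (key J' J h.symm)

lemma edge_up {k : ℕ} {J : Finset B} {s : B} (hs : s ∉ J) (hd : dep cs ω J s ≤ 2 * k + 1) :
    edge cs k (wJ cs ω J) (wJ cs ω (insert s J)) := by
  have hr := conjRefl_isReflection cs hn hall s (lst (bef ω s) J)
  refine ⟨conjRefl cs s (lst (bef ω s) J), (mem_reflLE cs).2 ⟨hr, hd⟩,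
    wJ_insert cs hn hall hs, ?_⟩
  apply Relation.TransGen.single
  refine ⟨_, hr, wJ_insert cs hn hall hs, ?_⟩
  rw [length_wJ cs hn hall hinj, length_wJ cs hn hall hinj, Finset.card_insert_of_notMem hs]
  omega

lemma edge_down {k : ℕ} {J' : Finset B} {a : W} (h : edge cs k a (wJ cs ω J')) :
    ∃ s ∈ J', a = wJ cs ω (J'.erase s) ∧ dep cs ω (J'.erase s) s ≤ 2 * k + 1 := by
  obtain ⟨t, ht, hta, hlt⟩ := h
  rw [mem_reflLE] at ht
  have hlen := bruhatLT_length cs hlt
  have ha : a = t * wJ cs ω J' := by
    rw [hta, ← mul_assoc, ht.1.mul_self, one_mul]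
  rw [ha] at hlen
  obtain ⟨q, hq, hq2, hdel⟩ := exchange_left cs (lst ω J') ht.1 hlen
  set s := (lst ω J')[q] with hs
  have hsJ : s ∈ J' := (mem_lst.1 (List.getElem_mem hq)).2
  have hJ : J' = insert s (J'.erase s) := (Finset.insert_erase hsJ).symm
  have hsplit : lst ω J' = lst (bef ω s) (J'.erase s) ++ s :: lst (aft ω s) (J'.erase s) := by
    conv_lhs => rw [hJ]
    exact lst_insert hn (hall s)
  have hnd : (lst ω J').Nodup := hn.filter _
  obtain ⟨h1, h2⟩ := take_erase_of_getElem hnd hsplit hq hs.symm
  refine ⟨s, hsJ, ?_, ?_⟩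
  · rw [ha]
    unfold wJ
    rw [hdel, h2, lst_of_notMem (hall s) (Finset.notMem_erase s J')]
  · unfold dep conjRefl
    rw [← h1, ← hq2]
    exact ht.2

omit hall hinj in
lemma nodup_bef (J : Finset B) (s : B) : (s :: lst (bef ω s) J).Nodup := by
  rw [List.nodup_cons]
  constructor
  · intro h
    exact notMem_bef (mem_lst.1 h).1
  · apply List.Nodup.filter
    exact (List.takeWhile_sublist _).nodup hn

omit hall in
lemma dep_mono {J J' : Finset B} (h : J ⊆ J') (s : B) : dep cs ω J s ≤ dep cs ω J' s := by
  unfold dep
  apply length_conjRefl_mono cs hinj s _ (nodup_bef hn J' s)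
  apply List.monotone_filter_right
  intro b
  simp only [decide_eq_true_eq]
  exact fun hb => h hb

lemma transGen_down {k : ℕ} {J' : Finset B} {a : W}
    (h : Relation.TransGen (edge cs k) a (wJ cs ω J')) :
    ∃ J, J ⊆ J' ∧ a = wJ cs ω J ∧ ∀ s ∈ J', s ∉ J → dep cs ω J s ≤ 2 * k + 1 := by
  induction h using Relation.TransGen.head_induction_on with
  | single h =>
    obtain ⟨s, hs, ha, hd⟩ := edge_down cs hn hall hinj h
    refine ⟨J'.erase s, Finset.erase_subset _ _, ha, ?_⟩
    intro s' h1 h2
    have : s' = s := by
      by_contra hne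
      exact h2 (Finset.mem_erase.2 ⟨hne, h1⟩)
    rw [this]; exact hd
  | head h _ ih =>
    obtain ⟨J₁, hJ₁, hb, hd₁⟩ := ih
    rw [hb] at h
    obtain ⟨s, hs, ha, hd⟩ := edge_down cs hn hall hinj h
    refine ⟨J₁.erase s, (Finset.erase_subset _ _).trans hJ₁, ha, ?_⟩
    intro s' h1 h2
    by_cases hne : s' = s
    · rw [hne]; exact hd
    · have h3 : s' ∉ J₁ := fun h4 => h2 (Finset.mem_erase.2 ⟨hne, h4⟩)
      exact (dep_mono cs hn hinj (Finset.erase_subset _ _) s').trans (hd₁ s' h1 h3)

variable {idx : B → ℕ} (hidx : ∀ (A C : List B) (s : B), ω = A ++ s :: C → ∀ b ∈ A, idx b < idx s)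
  (hord : ∀ a b : B, a ≤ b ↔ idx b ≤ idx a)

include hidx in
omit hinj in
/-- a later letter does not change the reflection -/
lemma dep_insert_later {J : Finset B} {s s' : B} (h : idx s' ≤ idx s) :
    dep cs ω (insert s J) s' = dep cs ω J s' := by
  unfold dep
  rw [lst_congr]
  intro b hb
  rw [Finset.mem_insert]
  constructor
  · rintro (rfl | h')
    · have := hidx _ _ s' (split_at (hall s')) b hb
      omega
    · exact h'
  · exact Or.inr

include hidx in
lemma reflTransGen_up {k : ℕ} (n : ℕ) : ∀ (J J' : Finset B), (J' \ J).card = n → J ⊆ J' →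
    (∀ s ∈ J', s ∉ J → dep cs ω J s ≤ 2 * k + 1) →
    Relation.ReflTransGen (edge cs k) (wJ cs ω J) (wJ cs ω J') := by
  induction n with
  | zero =>
    intro J J' hc hsub _
    rw [Finset.card_eq_zero, Finset.sdiff_eq_empty_iff_subset] at hc
    rw [Finset.Subset.antisymm hsub hc]
  | succ n ih =>
    intro J J' hc hsub hd
    have hne : (J' \ J).Nonempty := by
      rw [← Finset.card_pos, hc]; omega
    obtain ⟨s, hs, hmax⟩ := Finset.exists_max_image _ idx hne
    rw [Finset.mem_sdiff] at hs
    have h1 : edge cs k (wJ cs ω J) (wJ cs ω (insert s J)) :=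
      edge_up cs hn hall hinj hs.2 (hd s hs.1 hs.2)
    refine Relation.ReflTransGen.head h1 (ih (insert s J) J' ?_ ?_ ?_)
    · rw [Finset.sdiff_insert, Finset.card_erase_of_mem (Finset.mem_sdiff.2 hs), hc]
      rfl
    · exact Finset.insert_subset hs.1 hsub
    · intro s' h2 h3
      rw [Finset.mem_insert, not_or] at h3
      rw [dep_insert_later cs hn hall hidx (hmax s' (Finset.mem_sdiff.2 ⟨h2, h3.2⟩))]
      exact hd s' h2 h3.2

include hidx in
lemma interLE_of {k : ℕ} {J J' : Finset B} (hsub : J ⊆ J')
    (hd : ∀ s ∈ J', s ∉ J → dep cs ω J s ≤ 2 * k + 1) :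
    interLE cs k (wJ cs ω J) (wJ cs ω J') := by
  by_cases he : J = J'
  · left; rw [he]
  · right
    have hss : J ⊂ J' := lt_of_le_of_ne hsub he
    refine ⟨?_, ?_⟩
    · rw [length_wJ cs hn hall hinj, length_wJ cs hn hall hinj]
      exact Finset.card_lt_card hss
    · have h := reflTransGen_up cs hn hall hinj hidx (k := k) _ J J' rfl hsub hd
      rcases Relation.reflTransGen_iff_eq_or_transGen.1 h with h | h
      · exact absurd (wJ_injective cs hn hall hinj h).symm he
      · exact h

lemma of_interLE {k : ℕ} {a : W} {J' : Finset B} (h : interLE cs k a (wJ cs ω J')) :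
    ∃ J, J ⊆ J' ∧ a = wJ cs ω J ∧ ∀ s ∈ J', s ∉ J → dep cs ω J s ≤ 2 * k + 1 := by
  rcases h with h | h
  · exact ⟨J', Finset.Subset.refl _, h, fun s h1 h2 => absurd h1 h2⟩
  · exact transGen_down cs hn hall hinj h.2

omit hn hall hinj in
/-- the family of sets describing the interval -/
def famP (ω : List B) (k : ℕ) : Set (Finset B) := {J | ∀ s, s ∉ J → dep cs ω J s ≤ 2 * k + 1}

omit hn hall in
lemma dep_empty (s : B) : dep cs ω ∅ s = 1 := by
  unfold dep
  have : lst (bef ω s) ∅ = [] := by simp [lst]
  rw [this]
  simp [conjRefl]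

include hidx in
lemma interval_eq [Fintype B] (k : ℕ) :
    interInterval cs k 1 (cs.wordProd ω) = wJ cs ω '' famP cs ω k := by
  have hc : cs.wordProd ω = wJ cs ω Finset.univ := by
    unfold wJ
    congr 1
    simp [lst]
  have h1 : (1 : W) = wJ cs ω ∅ := by
    unfold wJ
    simp [lst]
  ext v
  constructor
  · rintro ⟨-, hv⟩
    rw [hc] at hv
    obtain ⟨J, -, rfl, hd⟩ := of_interLE cs hn hall hinj hv
    exact ⟨J, fun s hs => hd s (Finset.mem_univ s) hs, rfl⟩
  · rintro ⟨J, hJ, rfl⟩
    constructor
    · rw [h1]
      apply interLE_of cs hn hall hinj hidx (Finset.empty_subset J)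
      intro s _ _
      rw [dep_empty cs hinj]
      omega
    · rw [hc]
      exact interLE_of cs hn hall hinj hidx (Finset.subset_univ J) (fun s _ hs => hJ s hs)

include hidx hord in
lemma famP_minClosed (k : ℕ) : MinClosed (famP cs ω k) := by
  intro X hX Y hY hXY s hsY hsX hmin s' hs'
  rw [Finset.mem_insert, not_or] at hs'
  by_cases hY' : s' ∈ Y
  · have h1 := (hord s s').1 (hmin s' hY' hs'.2)
    rw [dep_insert_later cs hn hall hidx h1]
    exact hX s' hs'.2
  · exact (dep_mono cs hn hinj (Finset.insert_subset hsY hXY) s').trans (hY s' hY')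

include hidx hord in
theorem interval_shellable [Fintype B] (k : ℕ) :
    Shellable (orderComplex (interLE cs k) (interInterval cs k 1 (cs.wordProd ω))) := by
  classical
  rw [interval_eq cs hn hall hinj hidx k]
  have h0 : (∅ : Finset B) ∈ famP cs ω k := by
    intro s _
    rw [dep_empty cs hinj]
    omega
  have h1 : (Finset.univ : Finset B) ∈ famP cs ω k := by
    intro s hs
    exact absurd (Finset.mem_univ s) hs
  have hsh := shellable_of_minClosed h0 h1 (famP_minClosed cs hn hall hinj hidx hord k)
  refine shellable_image (wJ cs ω) ((wJ_injective cs hn hall hinj).injOn) ?_ hsh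
  intro J hJ J' hJ'
  constructor
  · intro h
    obtain ⟨J₀, hsub, he, -⟩ := of_interLE cs hn hall hinj h
    rw [wJ_injective cs hn hall hinj he]
    exact hsub
  · intro h
    exact interLE_of cs hn hall hinj hidx h (fun s _ hs => hJ s hs)

end

end Pool.Agent.Lib.MP_20db89_co
end
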