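import Mathlib
import Pool.Agent.Lib.MP_20db89_co.AK.LIN
import Pool.Agent.Lib.MP_20db89_co.AK.PEN
import Pool.Agent.Lib.MP_20db89_co.AK.DUA
import Pool.Agent.Lib.MP_20db89_co.AK.FAM
import Pool.Agent.Lib.MP_20db89_co.AK.FRS
import Pool.Agent.Lib.MP_20db89_co.AK.SHG
import Pool.Agent.Lib.MP_20db89_co.AK.TRI
import Pool.Agent.Lib.MP_20db89_co.AK.SHL
import Pool.Agent.Lib.MP_20db89_co.AK.SIM
import Pool.Agent.Lib.MP_20db89_co.AK.UEX
import Pool.Agent.Lib.MP_20db89_co.Defs
import Pool.Agent.Lib.MP_20db89_co.Interval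

section
set_option autoImplicit false

/-!
# Assembly: the interval `[e, c]_{ak}` of the `k`-absolute order
-/

namespace Pool.Agent.Lib.MP_20db89_co.AK

universe u

theorem allLMU : SpecLMU.{u} :=
  specLMU specEUL specSES (specHRN specSES specHRL) specUEX specEVM

theorem allMUT : SpecMUT.{u} := specMUT allLMU (specRMU allLMU specDUA)

theorem allSGN : SpecSGN.{u} := specSGN specRNG (specPOS specRNG)

theorem allCOE : SpecCOE.{u} := specCOE specRNG

theorem allHRN : SpecHRN.{u} := specHRN specSES specHRL

theorem allFAM : SpecFAM.{u} :=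
  specFAM specRNG specRTF allSGN specHUR specEUL allHRN allMUT (specSIM specEUL) allCOE
    (specBLK specRNG allCOE allMUT)

theorem allTRI : SpecTRI.{u} :=
  specTRI specRNG specRTF allSGN specEUL allHRN allCOE allFAM

theorem allUNI : SpecUNI.{u} :=
  specUNI specRNG specRTF allSGN specEUL allHRN specPEN specISO (specLIN specEUL)
    (specFLT specEUL specSES specKIC specSUB (specLIN specEUL)) allCOE allFAM allTRI

theorem allAXM : SpecAXM.{u} :=
  specAXM specRNG (specRDE (specFR specFRS specFRT) specBRD) specRTF allSGN specHUR allTRI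
    (specHRB specRNG specEUL allHRN allCOE allFAM allTRI)
    (specSRT specRNG specRTF allSGN specPAL allTRI) allUNI
    (specINC specRNG specRTF allSGN allTRI)

theorem allSHL : SpecSHL.{u} := specSHL specORD (specGAP specCMP) specVSL specSHG

theorem allABS : SpecABS.{u} := specABS (specALE specRED)

/-- The interval `[e, c]_{ak}` of the `k`-absolute order: it is finite, `absLE` is a partial order
on it, and its order complex is shellable. -/
theorem abs_main {B W : Type u} [Finite B] [Group W] {M : CoxeterMatrix B}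
    (cs : CoxeterSystem M W) (hinj : Function.Injective cs.simple) (ω : List B) (hnd : ω.Nodup)
    (hall : ∀ s : B, s ∈ ω) (k : ℕ) :
    (absInterval cs k 1 (cs.wordProd ω)).Finite ∧
    ((∀ x ∈ absInterval cs k 1 (cs.wordProd ω), absLE cs k x x) ∧
      (∀ x ∈ absInterval cs k 1 (cs.wordProd ω), ∀ y ∈ absInterval cs k 1 (cs.wordProd ω),
        absLE cs k x y → absLE cs k y x → x = y) ∧
      (∀ x ∈ absInterval cs k 1 (cs.wordProd ω), ∀ y ∈ absInterval cs k 1 (cs.wordProd ω),
        ∀ z ∈ absInterval cs k 1 (cs.wordProd ω),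
        absLE cs k x y → absLE cs k y z → absLE cs k x z)) ∧
    Shellable (orderComplex (absLE cs k) (absInterval cs k 1 (cs.wordProd ω))) := by
  classical
  haveI : Fintype B := Fintype.ofFinite B
  obtain ⟨Ex, Hm, hAx⟩ := allAXM B W M cs hinj ω hnd hall
  obtain ⟨h1, h2, h3, h4⟩ := allABS B W M cs _ _ Ex Hm hAx k
  have hfin : (reflLE cs k).Finite := specFIN B W M cs k
  refine ⟨?_, ⟨?_, h3, h4⟩, ?_⟩
  · have hL : {L : List W | IsFac cs (cs.wordProd ω) ω.length L ∧ ∀ t ∈ L, t ∈ reflLE cs k}.Finite :=
      (SHLM.finite_lists hfin ω.length).subset (fun L hL => ⟨hL.1.2.2, hL.2⟩)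
    refine (hL.biUnion (t := fun L => ((vs L : Finset W) : Set W)) fun L _ =>
      Finset.finite_toSet _).subset ?_
    intro w hw
    obtain ⟨L, hL1, hL2⟩ := (h2 w).1 hw
    rw [Set.mem_iUnion₂]
    exact ⟨L, hL1, hL2⟩
  · intro x _
    have : absLen cs k (1 : W) = 0 := Nat.le_zero.1 (ALEM.absLen_le (m := 0) rfl)
    unfold absLE
    rw [mul_inv_cancel, this, add_zero]
  · rw [h1]
    exact allSHL B W M cs _ _ Ex Hm hAx k hfin

/-- the `k`-absolute length is attained -/
theorem absLen_attained {B W : Type u} [Group W] {M : CoxeterMatrix B}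
    (cs : CoxeterSystem M W) (k : ℕ) (w : W) : absPath cs k (absLen cs k w) 1 w :=
  ALEM.absLen_path k w

end Pool.Agent.Lib.MP_20db89_co.AK
end

section
set_option autoImplicit false

/-!
The order complexes of the intervals `[e, c]_k` and `[e, c]_{ak}` are pure: every facet has
`|S| + 1` elements.
-/

namespace Pool.Agent.Lib.MP_20db89_co

/-- a flag has one more element than the list -/
lemma card_flag {α : Type*} [DecidableEq α] {l : List α} (hl : l.Nodup) :
    ((l.inits.map List.toFinset).toFinset).card = l.length + 1 := by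
  rw [List.toFinset_card_of_nodup]
  · simp
  · rw [List.nodup_iff_injective_getElem]
    intro i j hij
    have hi : (i : ℕ) ≤ l.length := by have := i.2; simp at this; omega
    have hj : (j : ℕ) ≤ l.length := by have := j.2; simp at this; omega
    simp only [List.getElem_map, List.getElem_inits] at hij
    have h1 : (l.take i).Nodup := (List.take_sublist _ _).nodup hl
    have h2 : (l.take j).Nodup := (List.take_sublist _ _).nodup hl
    have h3 := congrArg Finset.card hij
    rw [List.toFinset_card_of_nodup h1, List.toFinset_card_of_nodup h2, List.length_take,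
      List.length_take] at h3
    apply Fin.ext
    omega

/-- facets of an order complex after relabelling -/
lemma facet_image {V V' : Type*} [DecidableEq V'] {r : V → V → Prop} {r' : V' → V' → Prop}
    {P : Set V} (g : V → V') (hg : Set.InjOn g P)
    (hr : ∀ x ∈ P, ∀ y ∈ P, r' (g x) (g y) ↔ r x y) (F' : Finset V')
    (hF' : IsFacet (orderComplex r' (g '' P)) F') :
    ∃ F : Finset V, IsFacet (orderComplex r P) F ∧ F.card = F'.card := by
  classical
  have hface : ∀ F : Finset V, F ∈ orderComplex r P → F.image g ∈ orderComplex r' (g '' P) := by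
    intro F hF
    constructor
    · intro x hx
      rw [Finset.coe_image] at hx
      obtain ⟨y, hy, rfl⟩ := hx
      exact ⟨y, hF.1 hy, rfl⟩
    · intro x hx y hy hne
      rw [Finset.coe_image] at hx hy
      obtain ⟨x, hx, rfl⟩ := hx
      obtain ⟨y, hy, rfl⟩ := hy
      have hne' : x ≠ y := fun h => hne (by rw [h])
      rcases hF.2 hx hy hne' with h | h
      · left; exact (hr x (hF.1 hx) y (hF.1 hy)).2 h
      · right; exact (hr y (hF.1 hy) x (hF.1 hx)).2 h
  have hch : ∀ x ∈ F', ∃ y, y ∈ P ∧ g y = x := by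
    intro x hx
    obtain ⟨y, hy, he⟩ := hF'.1.1 hx
    exact ⟨y, hy, he⟩
  choose k hk using hch
  have hF : F'.attach.image (fun x => k x.1 x.2) ∈ orderComplex r P := by
    refine ⟨?_, ?_⟩
    · intro y hy
      rw [Finset.coe_image] at hy
      obtain ⟨x, hx, rfl⟩ := hy
      exact (hk x.1 x.2).1
    · intro y hy z hz hne
      rw [Finset.coe_image] at hy hz
      obtain ⟨x, -, rfl⟩ := hy
      obtain ⟨x', -, rfl⟩ := hz
      have hne' : x.1 ≠ x'.1 := by
        intro h
        apply hne
        have : x = x' := Subtype.ext h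
        rw [this]
      have h1 := hr _ (hk x.1 x.2).1 _ (hk x'.1 x'.2).1
      have h2 := hr _ (hk x'.1 x'.2).1 _ (hk x.1 x.2).1
      rw [(hk x.1 x.2).2, (hk x'.1 x'.2).2] at h1 h2
      rcases hF'.1.2 x.2 x'.2 hne' with h | h
      · left; exact h1.1 h
      · right; exact h2.1 h
  have himg : (F'.attach.image (fun x => k x.1 x.2)).image g = F' := by
    rw [Finset.image_image]
    ext z
    rw [Finset.mem_image]
    constructor
    · rintro ⟨x, hx, rfl⟩
      rw [Function.comp_apply, (hk x.1 x.2).2]; exact x.2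
    · intro hz
      exact ⟨⟨z, hz⟩, Finset.mem_attach _ _, by rw [Function.comp_apply, (hk z hz).2]⟩
  set F := F'.attach.image (fun x => k x.1 x.2) with hFdef
  refine ⟨F, ⟨hF, ?_⟩, ?_⟩
  · intro G hG hle
    have h1 := hF'.2 _ (hface G hG) (by rw [← himg]; exact Finset.image_subset_image hle)
    apply Finset.Subset.antisymm hle
    intro x hx
    have h2 : g x ∈ F.image g := by rw [himg, h1]; exact Finset.mem_image_of_mem g hx
    obtain ⟨y, hy, he⟩ := Finset.mem_image.1 h2
    rw [← hg (hF.1 hy) (hG.1 hx) he]; exact hy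
  · rw [← himg, Finset.card_image_of_injOn (hg.mono (fun x hx => hF.1 hx))]

section

variable {B : Type*} [LinearOrder B] {W : Type*} [Group W] {M : CoxeterMatrix B}
  (cs : CoxeterSystem M W) {ω : List B} (hn : ω.Nodup) (hall : ∀ b, b ∈ ω)
  (hinj : Function.Injective cs.simple)
  {idx : B → ℕ} (hidx : ∀ (A C : List B) (s : B), ω = A ++ s :: C → ∀ b ∈ A, idx b < idx s)
  (hord : ∀ a b : B, a ≤ b ↔ idx b ≤ idx a)

include hn hall hinj hidx hord in
/-- the order complex of `[e, c]_k` is pure -/
theorem interval_pure [Fintype B] (k : ℕ) (F : Finset W)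
    (hF : IsFacet (orderComplex (interLE cs k) (interInterval cs k 1 (cs.wordProd ω))) F) :
    F.card = ω.length + 1 := by
  classical
  rw [interval_eq cs hn hall hinj hidx k] at hF
  have h0 : (∅ : Finset B) ∈ famP cs ω k := by
    intro s _
    rw [dep_empty cs hinj]
    omega
  have h1 : (Finset.univ : Finset B) ∈ famP cs ω k := by
    intro s hs
    exact absurd (Finset.mem_univ s) hs
  obtain ⟨G, hG, hc⟩ := facet_image (r := fun X Y : Finset B => X ⊆ Y) (wJ cs ω)
    ((wJ_injective cs hn hall hinj).injOn) (by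
      intro J hJ J' hJ'
      constructor
      · intro h
        obtain ⟨J₀, hsub, he, -⟩ := of_interLE cs hn hall hinj h
        rw [wJ_injective cs hn hall hinj he]
        exact hsub
      · intro h
        exact interLE_of cs hn hall hinj hidx h (fun s _ hs => hJ s hs)) F hF
  obtain ⟨l, hl, hlG⟩ := exists_list_of_facet h0 h1 (famP_minClosed cs hn hall hinj hidx hord k) hG
  have hlen : l.length = ω.length := by
    have e1 : l.toFinset = Finset.univ := by ext x; simp [hl.2.1 x]
    have e2 : ω.toFinset = Finset.univ := by ext x; simp [hall x]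
    rw [← List.toFinset_card_of_nodup hl.1, ← List.toFinset_card_of_nodup hn, e1, e2]
  rw [← hc, ← hlG, ← hlen]
  unfold flag
  have := card_flag hl.1
  convert this

end

namespace AK

universe u

/-- the order complex of `[e, c]_{ak}` is pure -/
theorem abs_pure {B W : Type u} [Finite B] [Group W] {M : CoxeterMatrix B}
    (cs : CoxeterSystem M W) (hinj : Function.Injective cs.simple) (ω : List B) (hnd : ω.Nodup)
    (hall : ∀ s : B, s ∈ ω) (k : ℕ) (F : Finset W)
    (hF : IsFacet (orderComplex (absLE cs k) (absInterval cs k 1 (cs.wordProd ω))) F) :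
    F.card = ω.length + 1 := by
  classical
  haveI : Fintype B := Fintype.ofFinite B
  obtain ⟨Ex, Hm, hAx⟩ := allAXM B W M cs hinj ω hnd hall
  obtain ⟨h1, -, -, -⟩ := allABS B W M cs _ _ Ex Hm hAx k
  obtain ⟨v1, -, -, -⟩ := specVSL B W M cs _ _ Ex Hm hAx
  rw [h1] at hF
  obtain ⟨⟨L, hL, hsub⟩, hmax⟩ := hF
  rw [hmax (vs L) ⟨L, hL, Finset.Subset.refl _⟩ hsub]
  exact v1 L hL.1

end AK

end Pool.Agent.Lib.MP_20db89_co
end
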